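import Pool.Agent.P.MP_17d087_al.Main

/-!
For every characteristic there is a non-invertible domain whose nonzero elements embed in a group.
-/

set_option autoImplicit false

namespace Pool.Agent.Results.MP_17d087_al.AllChar

open Pool.Agent.P.MP_17d087_al

universe u

theorem result (p : ℕ) (hp : p = 0 ∨ p.Prime) :
    ∃ (R : Type) (_ : Ring R), CharP R p ∧ Nontrivial R ∧ NoZeroDivisors R ∧
      (∃ (G : Type) (_ : Group G) (φ : R → G),
        (∀ a b : R, a ≠ 0 → b ≠ 0 → φ (a * b) = φ a * φ b) ∧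
        (∀ a b : R, a ≠ 0 → b ≠ 0 → φ a = φ b → a = b)) ∧
      (∀ (S : Type u) [Ring S] (ι : R →ₙ+* S), Function.Injective ι →
        ¬ ∀ a : R, a ≠ 0 → IsUnit (ι a)) := by
  have main : ∀ (F : Type) [Field F] [CharP F p],
      ∃ (R : Type) (_ : Ring R), CharP R p ∧ Nontrivial R ∧ NoZeroDivisors R ∧
      (∃ (G : Type) (_ : Group G) (φ : R → G),
        (∀ a b : R, a ≠ 0 → b ≠ 0 → φ (a * b) = φ a * φ b) ∧
        (∀ a b : R, a ≠ 0 → b ≠ 0 → φ a = φ b → a = b)) ∧
      (∀ (S : Type u) [Ring S] (ι : R →ₙ+* S), Function.Injective ι →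
        ¬ ∀ a : R, a ≠ 0 → IsUnit (ι a)) := by
    intro F _ _
    let _ := parRat F
    have : CharP (RatFunc F) p :=
      charP_of_injective_algebraMap (algebraMap F (RatFunc F)).injective p
    exact ⟨R (RatFunc F), inferInstance, charP_R p, inferInstance, noZeroDivisors_R, group_embed,
      fun S _ ι hι => not_invertible S ι hι⟩
  rcases hp with rfl | hp
  · exact main ℚ
  · have := Fact.mk hp
    exact main (ZMod p)

end Pool.Agent.Results.MP_17d087_al.AllChar
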